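import Pool.Agent.Lib.MP_4a4360_co.Final

namespace Pool.Agent.Results.MP_4a4360_co.DoubledLoop

open Pool.Agent.Lib.MP_4a4360_co

/-- There are a triangulation `t`, a shortest separating non-contractible cycle `C` of `t`, a
simple cycle `γ` and a path `C'` such that `C = γ γ C'`. -/
theorem result : ∃ (t : Triangulation) (C γ C' : List t.Dart),
    t.IsShortestSNCC C ∧ t.IsSimpleCycle γ ∧ t.IsPath C' ∧ C = γ ++ γ ++ C' :=
  ⟨Example.T, Example.C, Example.γ, Example.C', Example.isShortestSNCC_C,
    Example.isSimpleCycle_γ, Example.isPath_C', rfl⟩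

end Pool.Agent.Results.MP_4a4360_co.DoubledLoop
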